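import Pool.Agent.U548.IJ.Rich

/-!
# Homological and numerical equivalence on products over finite fields, and the injectivity
conjecture of Tate

Let `W` be a Weil cohomology with coefficient field `K` (of characteristic zero, for example the
field of `ℓ`-adic numbers) for smooth proper varieties over an algebraic closure of a finite field,
with its Frobenius endomorphisms `Φ`. The injectivity conjecture of Tate (`InjectivityConj W Z`, also
called the conjecture `I`) says that cycles on `Z` of the same codimension whose classes are linearly
independent over `ℚ` have linearly independent classes over `K`. It follows from the conjecture `D`
(homological and numerical equivalence coincide on `Z`), since intersection numbers are rational.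
Conversely `D` is not known to follow from `I`.

We prove that it does for the following varieties `Z`. Let `P` be a set of varieties `X` such that
`D` holds for `X` and Frobenius acts on the transcendental cohomology `T(X)` (the orthogonal
complement of the algebraic classes) as follows (`IsFrobeniusRich`): it is semisimple with a rational
minimal polynomial all of whose complex roots have absolute value `q ^ (dim X / 2)` (the Riemann
hypothesis; the degree is the middle one), and all `K`-linear endomorphisms of `T(X)` commuting with
Frobenius are given by algebraic correspondences with coefficients in `K`. The last condition holds
if the eigenvalues of Frobenius on `T(X)` are simple, since then only the polynomials in Frobenius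
commute with it: for instance for K3 surfaces of height one (and other surfaces with this property;
`D` is known for surfaces). Let `𝒴` be any set of varieties such that `D` holds for all products of
members of `𝒴`.

**Theorem.** For every product `Z` of members of `P` and `𝒴` (of any number of factors, with
repetitions), `D(Z)` holds if and only if `I(Z)` holds.

So if `D` fails for such a product (there is a numerically trivial cycle `z` with `cl z ≠ 0`), then
the classes of the cycles on the same variety `Z` satisfy relations over `K` which do not come from
relations over `ℚ`.

The proof: over an algebraic closure `L` of `K` the cohomology of `Z` is a sum of products `M` of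
eigenspaces of Frobenius in the `T(X_i)`, of algebraic parts and of `H(Y)`, and all endomorphisms of
the eigenspaces are algebraic. The complex conjugates of the eigenvalues belong to a product `M'`
which is dual to `M`, up to the factors `H(Y)`. The projectors to `M` and `M'` are combinations of the
same correspondences with rational coefficients, with coefficients in `L` which are complex conjugate
algebraic numbers. By `I`, a rational algebraic class with component zero in `M'` has component zero
in `M`; and by duality a numerically trivial one has component zero in `M` or in `M'`.
-/

set_option autoImplicit false

open CategoryTheory AlgebraicGeometry

universe u v

namespace Pool.Agent.Results.MP_0c8446_ag.InjectivityEquivalence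

open Pool.Agent.H914 Pool.Agent.H914.VarClass Pool.Agent.W534 Pool.Agent.R908

/-- **The conjecture D and the injectivity conjecture are equivalent for products of varieties with
many correspondences over finite fields and other varieties.** -/
theorem result {k : Type u} [Field k] {𝒱 : VarClass k} {ops : CycleOps 𝒱}
    (W : WeilCohomology.{u, v} ops) (p : ℕ) (Φ : FrobSystem W p) (P 𝒴 : Set 𝒱.Obj)
    (hP : ∀ X ∈ P, IsFrobeniusRich Φ X ∧ HomEqNum W X)
    (h𝒴 : ∀ Y, IsProductOf 𝒴 Y → HomEqNum W Y) (Z : 𝒱.Obj) (hZ : IsProductOf (P ∪ 𝒴) Z) :
    HomEqNum W Z ↔ InjectivityConj W Z :=
  (Pool.Agent.U548.IJ.injectivity_iff (fun X hX => (hP X hX).1) (fun X hX => (hP X hX).2)
    h𝒴 hZ).symm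

end Pool.Agent.Results.MP_0c8446_ag.InjectivityEquivalence
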