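import Pool.Agent.U435.SP.Num

/-!
# Homological and numerical equivalence over a field and over its prime field

Let `K` be an extension of the perfect field `k`, for instance `ℂ` and `ℚ`, or any field of
characteristic `p` and the field with `p` elements. **Homological and numerical equivalence coincide
on all smooth projective varieties over `K` if and only if they coincide on all smooth projective
varieties over `k`** (for Betti cohomology, or `ℓ`-adic cohomology with one `ℓ`). So Q1 for these
theories is a statement on varieties over `ℚ` and over the fields with `p` elements. No conjecture
is assumed.

`M : BaseMotives T` are the motives over `k`: `C` is the category of geometric motives over `k` with
rational coefficients (a rigid tensor triangulated category with `End(𝟙) = ℚ`), `Chow` the class of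
its Chow motives with their formal properties (`IsChowClass`), `F : C ⥤ D` the Betti or an `ℓ`-adic
realisation with values in the derived category `D` of finite dimensional vector spaces over `E`
(`T : Coefficients E`), `W` the part of weight zero of its zeroth cohomology (Deligne;
`WeightZero`). `N : ExtensionMotives M` are the motives over `K`, with the base change `b` and the
realisation `N.F`. The cycles in `CH^r(X)` are the morphisms `z : M(X)(-r)[-2r] ⟶ 𝟙`.
`IsSpreading` says that motives and cycles over `K` come from motives and cycles over smooth
connected `k`-varieties `U` (`Model`), for which known theorems are used (`IsModel`): the
motive over `k` of a smooth variety over `U` has weights at most zero, the monodromy on the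
cohomology of the fibres of a smooth projective morphism is semisimple and the Leray spectral
sequence degenerates (Deligne), `U` has a closed point.

Proof. Let the equivalences coincide over `k`, and let `z` be a cycle over `K` with non-zero class;
it comes from a cycle `z` on `X ⟶ U`. The push-forward to `X` of the restriction of `z` to the
fibre over a closed point is not zero in the homology of the open variety `X` over `k` (the
invariants of the monodromy map isomorphically to the coinvariants, and these inject into the
homology of `X`). By weights it is not zero in the homology of a smooth compactification `X̄`, so by
hypothesis some cycle on `X̄` has non-zero intersection number with it. The restriction to the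
generic fibre of this cycle has non-zero intersection number with `z`. Conversely, numerically
trivial cycles over `k` stay numerically trivial over `K`, by specialisation to a closed point.
-/

set_option autoImplicit false

open CategoryTheory Limits MonoidalCategory Pretriangulated

universe v u v' u' w

namespace Pool.Agent.Results.MP_0c8446_ag.ReductionToPrimeField

open Pool.Agent.Y116.MT Pool.Agent.U735.CV Pool.Agent.U435.SP

/-- **Numerically trivial cycles over the extension `K` of `k` are homologically trivial if and only
if numerically trivial cycles over `k` are.** Here `T` is the derived category of finite dimensional
vector spaces over `E`, `M` are the motives over `k`, `N` the motives over `K`, and `c` says that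
the realisations are compatible with base change. -/
theorem result {E : Type w} [Field E] [CharZero E] (T : Coefficients.{v', u', w} E)
    (M : BaseMotives.{v, u} T) (N : ExtensionMotives M) (c : N.b ⋙ N.F ≅ M.F) :
    NumIsHom N.Chow N.F ↔ NumIsHom M.Chow M.F :=
  numIsHom_iff N c

end Pool.Agent.Results.MP_0c8446_ag.ReductionToPrimeField
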