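import Mathlib
import Pool.Agent.U175.LP.P4

/-!
# Homological and numerical equivalence on products with powers of varieties whose residual
# representation is primitive and contains a transvection

Let `p ≥ 5` be a prime number and `W` a Weil cohomology theory on a class of smooth proper varieties
over a field `k` of any characteristic, with coefficients in a field which contains the `p`-adic
numbers; the example is the `p`-adic cohomology of varieties over an algebraically closed field of
characteristic different from `p`. Let `Γ` be a group (for example the Galois group of a field of
definition, or the fundamental group of the base of a family) and `G` a class of varieties, closed under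
products, with an action of `Γ` on the cohomology which has the formal properties of a Galois action.

Let `X i` be finitely many varieties of odd dimension, with divisors which satisfy hard Lefschetz and
the standard conjectures of Lefschetz and of Hodge type (for instance curves, hypersurfaces and
complete intersections of odd dimension), whose transcendental cohomology is in the middle degree,
and `Λ i` a lattice over the `p`-adic integers in it, of rank `N i`, stable under `Γ`; a multiple of the
intersection form is integral and not zero modulo `p` on `Λ i` (`ResidualSystem`). The variety `Z` is
arbitrary, with a stable lattice of rank `d` in its cohomology. The hypothesis (`ResidualTransvections`)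
is on the residual representations `Λ i / p Λ i` only:

* (primitive) a subspace `W` of `Λ i / p Λ i` such that for all `g` in `Γ` the subspace `g W` is equal
  to `W` or orthogonal to `W` is zero or the whole space; in other words the residual representation
  is irreducible and there is no orthogonal decomposition into several subspaces which are
  permuted by `Γ`;
* (transvection) for each `i` ONE element of `Γ` acts as a nontrivial transvection on `Λ i / p Λ i`,
  and trivially on `Λ j / p Λ j` if `j ≠ i` and `N j = N i`, and also on the lattice of `Z` modulo `p`
  if `N i (N i + 1) ≤ 2 d ^ 2`.

For example let `v` be a place of the field of definition at which `X i` acquires one ordinary double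
point (not a `p`-th power in the base), and at which the `X j` with `j ≠ i` and `N j = N i` have good
reduction, and also `Z`, if its Betti number is not small; then the elements of the inertia group at `v`
act in this way. If the ranks `N i` are different, and large compared to the sum `d` of the Betti
numbers of `Z`, then this is a hypothesis on each of the residual representations separately.

**Theorem.** Let `T` be the product of `Z` with arbitrary powers of the `X i`. Then

1. homological and numerical equivalence coincide for `T` if and only if they coincide for `Z`;
2. if they coincide for `Z` (for instance if `Z` is a point, a curve or a surface), then they coincide for
   every variety `V` which is dominated by `T` (`1` is the direct image under a morphism from `T` to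
   `V` of the class of a cycle).

No standard conjecture is assumed for `Z`.

For abelian varieties and for products with a point, a curve or a surface where all conjectures for the
factors are known such statements were proved before with characteristic zero information on
the monodromy; the kept results `MP_f569db_ag.NodalProducts` and `SimultaneousDegenerations` need
elements of `Γ` which act on the `p`-adic cohomology by unipotent maps and trivially on the
cohomology of the other factors, and of `Z`. Here all hypotheses are modulo `p`: there are no unipotent
elements in the `p`-adic image a priori, and nothing is assumed on its action on factors of different
Betti numbers.

Proof. The radical of the form on `Λ i / p Λ i` is a proper stable subspace, so the form is unimodular.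
Let `v` be the vector of the transvection; its translates `g v` are vectors of transvections in the
image (of the conjugates). Two translates are connected if they are joined by a chain of translates in
which consecutive ones are not orthogonal. The span `W` of a class is nonzero, and `g W` is equal to `W`
or orthogonal to `W` for every `g`; so it is everything, and there is only one class
(`connected_of_primitive`). Now the theorem on connected families of transvections modulo `p`
applies (`tan_large'`, see `MP_96693b_ag.LargeImageModPrime`): the Lie algebra of the joint `p`-adic image
contains the symplectic Lie algebras of all `Λ i`, zero on the other lattices and on the cohomology of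
`Z`. By the first fundamental theorem and the positivity of the form on the classes generated by pairs
of factors, the components of an algebraic class on `T` are algebraic classes on `Z`.
-/

universe u

namespace Pool.Agent.Results.MP_0c8446_ag.ResidualTransvections

open Pool.Agent.H914 Pool.Agent.H281R3.HT Pool.Agent.TH125.Gal Pool.Agent.U175.LP.Res
  Pool.Agent.V11219.Bst

/-- **Homological and numerical equivalence on products with powers of varieties whose residual
representation modulo a prime number `p ≥ 5` is primitive and contains a transvection.** -/
theorem result {p : ℕ} [Fact p.Prime] (hp : 5 ≤ p) {k : Type u} [Field k] {𝒱 : VarClass k}
    {ops : CycleOps 𝒱} (W : WeilCohomology.{u, 0} ops) [Algebra ℚ_[p] W.K] {Γ : Type} [Group Γ]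
    (κ : Γ →* ℤ_[p]ˣ) {ι : Type} [Finite ι] (G : Set (GVar W Γ)) (X : ι → GVar W Γ)
    (D : ∀ i, (X i).X.Cycles) (Z : GVar W Γ) {N : ι → ℕ} (b : ∀ i, Fin (N i) → W.H (X i).X)
    (J : ∀ i, Matrix (Fin (N i)) (Fin (N i)) ℤ_[p])
    (ρ : ∀ i, Γ →* Matrix (Fin (N i)) (Fin (N i)) ℤ_[p])
    (h : ResidualSystem κ G X D Z b J ρ) (hR : ResidualTransvections Z.act J ρ) (E : Z.X.Cycles)
    (L : List (ι × ℕ)) (hLn : (L.map Prod.fst).Nodup) :
    (HomEqNum W (nodalTower X D Z E L).X ↔ HomEqNum W Z.X) ∧
    (HomEqNum W Z.X → ∀ (V : 𝒱.Obj) (g : (nodalTower X D Z E L).X ⟶ V), Dominant W g →
      HomEqNum W V) :=
  Pool.Agent.U175.LP.num_residual hp h hR E L hLn

end Pool.Agent.Results.MP_0c8446_ag.ResidualTransvections
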